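import Pool.Agent.Helper69.AS.St

/-! Project AS (MP_d112a4_gt), module GP: the descending path. -/

open Filter Topology Matrix Set MeasureTheory
open scoped ENNReal ComplexOrder

namespace Pool.Agent.Helper80.AS
open Pool.Agent.Helper35.PM Pool.Agent.Helper69.AS

theorem tanh_add' (x y : ℝ) : Real.tanh (x + y) =
    (Real.tanh x + Real.tanh y) / (1 + Real.tanh x * Real.tanh y) := by
  have hx := Real.cosh_pos x
  have hy := Real.cosh_pos y
  have hxy := Real.cosh_pos (x + y)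
  rw [Real.cosh_add] at hxy
  rw [Real.tanh_eq_sinh_div_cosh, Real.tanh_eq_sinh_div_cosh, Real.tanh_eq_sinh_div_cosh,
    Real.sinh_add, Real.cosh_add]
  have h1 : 1 + Real.sinh x / Real.cosh x * (Real.sinh y / Real.cosh y) ≠ 0 := by
    have : 1 + Real.sinh x / Real.cosh x * (Real.sinh y / Real.cosh y) =
      (Real.cosh x * Real.cosh y + Real.sinh x * Real.sinh y) / (Real.cosh x * Real.cosh y) := by
      field_simp
    rw [this]
    positivity
  rw [div_eq_div_iff hxy.ne' h1]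
  field_simp

theorem tanh_le {x y : ℝ} (h : x ≤ y) : Real.tanh x ≤ Real.tanh y := by
  rw [Real.tanh_eq_sinh_div_cosh, Real.tanh_eq_sinh_div_cosh,
    div_le_div_iff₀ (Real.cosh_pos x) (Real.cosh_pos y)]
  have h1 : 0 ≤ Real.sinh (y - x) := Real.sinh_nonneg_iff.2 (by linarith)
  rw [Real.sinh_sub] at h1
  linarith

theorem add_mono (a A b B : ℝ) (ha : 0 ≤ a) (hb : 0 ≤ b) (haA : a ≤ A) (hbB : b ≤ B)
    (hA : A ≤ 1) (hB : B ≤ 1) : (a + b) / (1 + a * b) ≤ (A + B) / (1 + A * B) := by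
  have hA0 : 0 ≤ A := ha.trans haA
  have hB0 : 0 ≤ B := hb.trans hbB
  have h1 : (a + b) / (1 + a * b) ≤ (A + b) / (1 + A * b) := by
    rw [div_le_div_iff₀ (by positivity) (by positivity)]
    nlinarith [mul_nonneg (sub_nonneg.2 haA) (by nlinarith : (0 : ℝ) ≤ 1 - b ^ 2)]
  have h2 : (A + b) / (1 + A * b) ≤ (A + B) / (1 + A * B) := by
    rw [div_le_div_iff₀ (by positivity) (by positivity)]
    nlinarith [mul_nonneg (sub_nonneg.2 hbB) (by nlinarith : (0 : ℝ) ≤ 1 - A ^ 2)]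
  exact h1.trans h2

theorem hGP (hMB : StMB) (hPC : StPC) (hFL : StFL) : StGP := by
  intro u j hP ℓ N hℓ hN
  by_contra hcon
  push Not at hcon
  have hN0 : (0 : ℝ) < N := by exact_mod_cast hN
  set κ : ℝ := (u 0 - 1 / 2) / N with hκ
  have hs0 : 0 < Real.tanh (ℓ / 2) := by
    rw [Real.tanh_eq_sinh_div_cosh]
    exact div_pos (Real.sinh_pos_iff.2 (by positivity)) (Real.cosh_pos _)
  have hs1 : Real.tanh (ℓ / 2) < 1 := Real.tanh_lt_one _
  have key : ∀ n : ℕ, n ≤ N → ∃ z : ℂ, ‖z‖ ≤ Real.tanh (n * ℓ / 2) ∧ u z ≤ u 0 - n * κ ∧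
      (1 ≤ n → u z < u 0 - n * κ) := by
    intro n
    induction n with
    | zero =>
      intro _
      exact ⟨0, by simp, by simp, by simp⟩
    | succ n ih =>
      intro hn
      obtain ⟨z, hz, hz2, -⟩ := ih (by omega)
      have hz1 : ‖z‖ < 1 := hz.trans_lt (Real.tanh_lt_one _)
      have hzN : ‖z‖ ≤ Real.tanh (N * ℓ / 2) := by
        refine hz.trans ?_
        apply tanh_le
        have : (n : ℝ) ≤ N := by exact_mod_cast (by omega : n ≤ N)
        nlinarith
      have h1 := hcon z hzN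
      have hPf := hPC u j hP (mob z) (hMB.2.1 z hz1)
        (fun ζ hζ => by
          simp only [Metric.mem_ball, dist_zero_right] at hζ ⊢
          exact (hMB.1 z ζ hz1 hζ).1)
      have hI := ((hFL _ _ hPf (Real.tanh (ℓ / 2)) hs0 hs1).1 0 (Real.tanh (ℓ / 2)) hs0
        (by simpa using hs1)).1
      obtain ⟨ζ, hζ, hζ2⟩ := exists_le_setAverage (μ := volume)
        (s := Metric.ball (0 : ℂ) (Real.tanh (ℓ / 2)))
        (Metric.measure_ball_pos _ _ hs0).ne' measure_ball_lt_top.ne hI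
      simp only [Metric.mem_ball, dist_zero_right] at hζ
      unfold df at h1
      beta_reduce at h1
      rw [hMB.2.2.1 z] at h1
      have hζ1 : ‖ζ‖ < 1 := hζ.trans hs1
      have h3 := (hMB.1 z ζ hz1 hζ1).2.1
      have hlt : u (mob z ζ) < u 0 - ((n + 1 : ℕ) : ℝ) * κ := by
        push_cast
        nlinarith
      refine ⟨mob z ζ, ?_, hlt.le, fun _ => hlt⟩
      refine h3.trans ?_
      have e : ((n + 1 : ℕ) : ℝ) * ℓ / 2 = n * ℓ / 2 + ℓ / 2 := by push_cast; ring
      rw [e, tanh_add']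
      exact add_mono _ _ _ _ (norm_nonneg _) (norm_nonneg _) hz hζ.le (Real.tanh_lt_one _).le
        (Real.tanh_lt_one _).le
  obtain ⟨z, hz, -, hz3⟩ := key N le_rfl
  have h4 := hz3 hN
  have hz1 : ‖z‖ < 1 := hz.trans_lt (Real.tanh_lt_one _)
  have h5 := hP.1 z (by simpa using hz1)
  have h6 : (N : ℝ) * κ = u 0 - 1 / 2 := by
    rw [hκ]; field_simp
  rw [h6] at h4
  linarith

end Pool.Agent.Helper80.AS
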